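import Pool.Agent.H61.KW.TA

/-!
# Kuiper board KW, row SH2: the shape theorem, case `rk b = 2`
-/

set_option autoImplicit false

open Set Pool.Agent.H61.KV Pool.Agent.H61.KW

namespace Pool.Agent.H85.KW.SH2

/-- the sum over three of four indices -/
theorem sum4 {V : Type} [AddCommMonoid V] (x : Fin 4 → V) :
    ∑ l ∈ Finset.univ.erase 0, x l = x 1 + (x 2 + x 3) ∧
    ∑ l ∈ Finset.univ.erase 1, x l = x 0 + (x 2 + x 3) ∧
    ∑ l ∈ Finset.univ.erase 2, x l = x 0 + (x 1 + x 3) ∧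
    ∑ l ∈ Finset.univ.erase 3, x l = x 0 + (x 1 + x 2) := by
  have h0 : Finset.univ.erase (0 : Fin 4) = {1, 2, 3} := by decide
  have h1 : Finset.univ.erase (1 : Fin 4) = {0, 2, 3} := by decide
  have h2 : Finset.univ.erase (2 : Fin 4) = {0, 1, 3} := by decide
  have h3 : Finset.univ.erase (3 : Fin 4) = {0, 1, 2} := by decide
  refine ⟨?_, ?_, ?_, ?_⟩
  · rw [h0, Finset.sum_insert (by decide), Finset.sum_pair (by decide)]
  · rw [h1, Finset.sum_insert (by decide), Finset.sum_pair (by decide)]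
  · rw [h2, Finset.sum_insert (by decide), Finset.sum_pair (by decide)]
  · rw [h3, Finset.sum_insert (by decide), Finset.sum_pair (by decide)]

theorem pf_SH2 (h : T_XSP) (h2 : T_RK2) (h3 : T_THN) (h4 : T_TWO) (h5 : T_EDG) : T_SH2 := by
  intro V _ _ _ C q b B hb2
  have hC := B.cc
  have hq := B.hq
  have hbC : b ∈ C := B.hb.1
  obtain ⟨b1, b2, hb1, hb2x, hDs, hb12, hb12'⟩ := h4 V C b hC hbC hb2
  have hb1C := hb1.1
  have hb2C := hb2x.1
  have hb1b : b1 ∈ Fc C b := tra hC hbC hb12 (left_fc hC hb1C hb2C)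
  have hb2b : b2 ∈ Fc C b := tra hC hbC hb12 (right_fc hC hb1C hb2C)
  have hb1q : b1 ∈ Fc C q := tra hC hq B.hb hb1b
  have hb2q : b2 ∈ Fc C q := tra hC hq B.hb hb2b
  -- no extreme ray contains `b`
  have hxx : ∀ x, Ex C x → b ∉ Fc C x := by
    intro x hx h6
    have h7 := rk_mono hC hx.1 h6
    rw [ex_rk hC hx] at h7
    omega
  have hle : ∀ s ∈ Fc C q, q ∉ Fc C s → rk C s ≤ 3 := by
    intro s hs h6
    have h7 := rk_lt hC hq hs h6
    rw [B.rk4] at h7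
    omega
  -- (1)
  have H1 : ∀ x y, Ex C x → Ex C y → x ∈ Fc C q → y ∈ Fc C q → q ∉ Fc C (x + y) :=
    fun x y hx hy hxq hyq => B.ncc x y hx hy hxq hyq (hxx x hx) (hxx y hy)
  -- (2)
  have H2 : ∀ e t, rk C e = 2 → b ∉ Fc C e → Ex C t → e ∈ Fc C q → t ∈ Fc C q →
      q ∉ Fc C (e + t) :=
    fun e t he hbe ht heq htq => B.ii2 e t he ht heq htq hbe (hxx t ht)
  -- (3)
  have H3 : ∀ s ∈ Fc C q, rk C s = 3 → b ∉ Fc C s → Smp C 3 s := by
    intro s hs hs3 hbs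
    have h6 : Module.finrank ℝ (Sp C s) < rk C q := by
      have h7 : Module.finrank ℝ (Sp C s) = 3 := hs3
      rw [h7, B.rk4]
      omega
    obtain ⟨t, ht, htq, ht'⟩ := h V C q (Sp C s) hC hq h6
    exact B.trc s t hs3 ht hs htq (fun h8 => ht' (mem_sp h8)) hbs (hxx t ht)
  -- (4)
  have H4 : ∀ x y, Ex C x → Ex C y → x ∈ Fc C q → y ∈ Fc C q → y ∉ Fc C x →
      b ∉ Fc C (x + y) → rk C (x + y) = 2 := by
    intro x y hx hy hxq hyq hxy hb
    have h6 := rk_add_ex hC hx.1 hy.1 hxy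
    rw [ex_rk hC hx] at h6
    have h7 := hle (x + y) (add_fc hC hq hxq hyq) (H1 x y hx hy hxq hyq)
    by_contra h8
    have h9 : rk C (x + y) = 3 := by omega
    have h10 := H3 (x + y) (add_fc hC hq hxq hyq) h9 hb
    exact h8 ((h2 V C hC).2 (x + y) x y (hC.add x hx.1 y hy.1) h10 hx hy
      (left_fc hC hx.1 hy.1) (right_fc hC hx.1 hy.1) hxy)
  -- ranks of faces which contain `b` and a further ray
  have hge : ∀ s ∈ C, ∀ y ∈ C, b ∈ Fc C s → y ∈ Fc C s → y ∉ Fc C b → 3 ≤ rk C s := by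
    intro s hs y hy hbs hys hyb
    have h6 := rk_add_ex hC hbC hy hyb
    have h7 := rk_mono hC hs (add_fc hC hs hbs hys)
    omega
  -- (5)
  have H5 : ∀ y, Ex C y → y ∈ Fc C q → y ∉ Fc C b →
      ∃ s ∈ Fc C q, rk C s = 3 ∧ b ∈ Fc C s ∧ y ∈ Fc C s := by
    intro y hy hyq hyb
    have hyC := hy.1
    have h6 : y + b1 ∈ C := hC.add y hyC b1 hb1C
    by_cases hb : b ∈ Fc C (y + b1)
    · have h7 := hge (y + b1) h6 y hyC hb (left_fc hC hyC hb1C) hyb
      have h8 := hle (y + b1) (add_fc hC hq hyq hb1q) (H1 y b1 hy hb1 hyq hb1q)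
      exact ⟨y + b1, add_fc hC hq hyq hb1q, by omega, hb, left_fc hC hyC hb1C⟩
    · have h7 : b1 ∉ Fc C y := by
        intro h8
        exact hyb (tra hC hbC hb1b (ex_symm hC hy hb1 h8))
      have h8 := H4 y b1 hy hb1 hyq hb1q h7 hb
      have h9 := H2 (y + b1) b2 h8 hb hb2x (add_fc hC hq hyq hb1q) hb2q
      have h10 : y + b1 + b2 ∈ C := hC.add _ h6 b2 hb2C
      have h11 : y + b1 ∈ Fc C (y + b1 + b2) := left_fc hC h6 hb2C
      have h12 : b2 ∈ Fc C (y + b1 + b2) := right_fc hC h6 hb2C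
      have h13 : y ∈ Fc C (y + b1 + b2) := tra hC h10 h11 (left_fc hC hyC hb1C)
      have h14 : b1 ∈ Fc C (y + b1 + b2) := tra hC h10 h11 (right_fc hC hyC hb1C)
      have h15 : b ∈ Fc C (y + b1 + b2) := tra hC h10 (add_fc hC h10 h14 h12) hb12'
      have h16 := hge _ h10 y hyC h15 h13 hyb
      have h17 := hle (y + b1 + b2) (add_fc hC hq (add_fc hC hq hyq hb1q) hb2q) h9
      exact ⟨y + b1 + b2, add_fc hC hq (add_fc hC hq hyq hb1q) hb2q, by omega, h15, h13⟩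
  -- (6)
  obtain ⟨x, hx, hxq, hxb⟩ : ∃ x, Ex C x ∧ x ∈ Fc C q ∧ x ∉ Sp C b := by
    refine h V C q (Sp C b) hC hq ?_
    have h7 : Module.finrank ℝ (Sp C b) = 2 := hb2
    rw [h7, B.rk4]
    omega
  have hxb' : x ∉ Fc C b := fun h6 => hxb (mem_sp h6)
  obtain ⟨D1, hD1q, hD1, hbD1, hxD1⟩ := H5 x hx hxq hxb'
  obtain ⟨y, hy, hyq, hyD1⟩ : ∃ y, Ex C y ∧ y ∈ Fc C q ∧ y ∉ Sp C D1 := by
    refine h V C q (Sp C D1) hC hq ?_
    have h7 : Module.finrank ℝ (Sp C D1) = 3 := hD1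
    rw [h7, B.rk4]
    omega
  have hD1C : D1 ∈ C := hD1q.1
  have hyD1' : y ∉ Fc C D1 := fun h6 => hyD1 (mem_sp h6)
  have hyb' : y ∉ Fc C b := fun h6 => hyD1' (tra hC hD1C hbD1 h6)
  obtain ⟨D2, hD2q, hD2, hbD2, hyD2⟩ := H5 y hy hyq hyb'
  have hD2C : D2 ∈ C := hD2q.1
  have hD21 : D2 ∉ Fc C D1 := fun h6 => hyD1' (tra hC hD1C h6 hyD2)
  have H6 : ∀ s ∈ Fc C q, rk C s = 3 → b ∈ Fc C s → s ∈ Fc C D1 ∨ s ∈ Fc C D2 := by
    intro s hs hs3 hbs
    by_contra h6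
    push Not at h6
    exact h5 V C q b D1 D2 s hC hq B.rk4 hb2 hD1q hD2q hs hD1 hD2 hs3 hbD1 hbD2 hbs hD21 h6.1 h6.2
  have hxD2 : x ∉ Fc C D2 := by
    intro h6
    have h7 : b + x ∈ Fc C D1 := add_fc hC hD1C hbD1 hxD1
    have h8 : b + x ∈ Fc C D2 := add_fc hC hD2C hbD2 h6
    have h9 := rk_add_ex hC hbC hx.1 hxb'
    have h10 : D2 ∈ Fc C (b + x) := of_rk hC hD2C h8 (by omega)
    exact hD21 (tra hC hD1C h7 h10)
  -- (7)
  have hxC := hx.1
  have hyC := hy.1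
  have hxy : y ∉ Fc C x := fun h6 => hyD1' (tra hC hD1C hxD1 h6)
  have hxyC : x + y ∈ C := hC.add x hxC y hyC
  have H7 : b ∉ Fc C (x + y) := by
    intro h6
    have h7 := hge (x + y) hxyC x hxC h6 (left_fc hC hxC hyC) hxb'
    have h8 := hle (x + y) (add_fc hC hq hxq hyq) (H1 x y hx hy hxq hyq)
    rcases H6 (x + y) (add_fc hC hq hxq hyq) (by omega) h6 with h9 | h9
    · exact hyD1' (face hC hD1C hxC hyC h9).2
    · exact hxD2 (face hC hD2C hxC hyC h9).1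
  have H8 : rk C (x + y) = 2 := H4 x y hx hy hxq hyq hxy H7
  have H9 : ∀ D ∈ Fc C q, rk C D = 3 → b ∈ Fc C D → ∀ z ∈ Fc C D, q ∉ Fc C (z + (b1 + b2)) := by
    intro D hD hD3 hbD z hz h6
    have h7 : z + (b1 + b2) ∈ Fc C D :=
      add_fc hC hD.1 hz (add_fc hC hD.1 (tra hC hD.1 hbD hb1b) (tra hC hD.1 hbD hb2b))
    have h8 := rk_mono hC hD.1 (tra hC hD.1 h7 h6)
    rw [B.rk4] at h8
    omega
  -- (8)
  have hli : LinearIndependent ℝ ![y, x, b1, b2] := by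
    have h6 : LinearIndependent ℝ ![b1, b2] := by
      rw [LinearIndependent.pair_iff]
      intro s t hst
      have h7 : s • b1 = -(t • b2) := eq_neg_of_add_eq_zero_left hst
      have h8 : s • b1 = 0 := by
        refine hDs.2.2.1 _ (Submodule.smul_mem _ _ (self_sp hC hb1C)) ?_
        rw [h7]
        exact Submodule.neg_mem _ (Submodule.smul_mem _ _ (self_sp hC hb2C))
      have h9 : t • b2 = 0 := by
        rw [h8, zero_add] at hst
        exact hst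
      exact ⟨(smul_eq_zero.1 h8).resolve_right hb1.2.1,
        (smul_eq_zero.1 h9).resolve_right hb2x.2.1⟩
    have h7 : LinearIndependent ℝ ![x, b1, b2] := by
      refine linearIndependent_finCons.2 ⟨h6, fun h8 => hxb ?_⟩
      refine Submodule.span_le.2 ?_ h8
      rintro _ ⟨i, rfl⟩
      fin_cases i
      · exact mem_sp hb1b
      · exact mem_sp hb2b
    refine linearIndependent_finCons.2 ⟨h7, fun h8 => hyD1 ?_⟩
    refine Submodule.span_le.2 ?_ h8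
    rintro _ ⟨i, rfl⟩
    fin_cases i
    · exact mem_sp hxD1
    · exact mem_sp (tra hC hD1C hbD1 hb1b)
    · exact mem_sp (tra hC hD1C hbD1 hb2b)
  refine ⟨![y, x, b1, b2], h3 V C q 4 _ hC hq B.rk4 hli ?_ ?_ ?_⟩
  · intro i
    fin_cases i
    · exact hy
    · exact hx
    · exact hb1
    · exact hb2x
  · intro i
    fin_cases i
    · exact hyq
    · exact hxq
    · exact hb1q
    · exact hb2q
  · obtain ⟨s0, s1, s2, s3⟩ := sum4 ![y, x, b1, b2]
    intro i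
    fin_cases i
    · show q ∉ Fc C (∑ l ∈ Finset.univ.erase 0, ![y, x, b1, b2] l)
      rw [s0]
      exact H9 D1 hD1q hD1 hbD1 x hxD1
    · show q ∉ Fc C (∑ l ∈ Finset.univ.erase 1, ![y, x, b1, b2] l)
      rw [s1]
      exact H9 D2 hD2q hD2 hbD2 y hyD2
    · show q ∉ Fc C (∑ l ∈ Finset.univ.erase 2, ![y, x, b1, b2] l)
      rw [s2]
      show q ∉ Fc C (y + (x + b2))
      have h6 : y + (x + b2) = x + y + b2 := by abel
      rw [h6]
      exact H2 (x + y) b2 H8 H7 hb2x (add_fc hC hq hxq hyq) hb2q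
    · show q ∉ Fc C (∑ l ∈ Finset.univ.erase 3, ![y, x, b1, b2] l)
      rw [s3]
      show q ∉ Fc C (y + (x + b1))
      have h6 : y + (x + b1) = x + y + b1 := by abel
      rw [h6]
      exact H2 (x + y) b1 H8 H7 hb1 (add_fc hC hq hxq hyq) hb1q

end Pool.Agent.H85.KW.SH2
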