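import Pool.Agent.H61.KW.TA

/-!
# Kuiper board KW, row SHC: case `rk b = 1`, pairs of rays
-/

set_option autoImplicit false

open Set Pool.Agent.H61.KV Pool.Agent.H61.KW

namespace Pool.Agent.H85.KW.SHC

section

variable {V : Type} [NormedAddCommGroup V] [NormedSpace ℝ V] [FiniteDimensional ℝ V]

/-- the extreme vectors of the face of `q` which are not in the ray of `b` -/
structure N (C : Set V) (q b x : V) : Prop where
  ex : Ex C x
  mq : x ∈ Fc C q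
  nb : b ∉ Fc C x

variable {C : Set V} {q b : V}

omit [FiniteDimensional ℝ V] in
theorem N.mC {x : V} (h : N C q b x) : x ∈ C := h.ex.1

theorem rk_le (B : Bsy C q b) {s : V} (hs : s ∈ Fc C q) (h : q ∉ Fc C s) : rk C s ≤ 3 := by
  have h1 := rk_lt B.cc B.hq hs h
  rw [B.rk4] at h1
  omega

theorem of_four (B : Bsy C q b) {s : V} (hs : s ∈ Fc C q) (h : 4 ≤ rk C s) : q ∈ Fc C s := by
  refine of_rk B.cc B.hq hs ?_
  rw [B.rk4]
  exact h

/-- (3) -/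
theorem smp3 (B : Bsy C q b)
    (H : ∀ W : Submodule ℝ V, Module.finrank ℝ W ≤ 3 → ∃ x, N C q b x ∧ x ∉ W)
    {s : V} (hs : s ∈ Fc C q) (h3 : rk C s = 3) (hb : b ∉ Fc C s) : Smp C 3 s := by
  obtain ⟨t, ht, htW⟩ := H (Sp C s) (le_of_eq h3)
  exact B.trc s t h3 ht.ex hs ht.mq (fun h => htW (mem_sp h)) hb ht.nb

theorem rk_two_three (B : Bsy C q b) {x y : V} (hx : N C q b x) (hy : N C q b y)
    (hxy : y ∉ Fc C x) : 2 ≤ rk C (x + y) ∧ rk C (x + y) ≤ 3 := by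
  constructor
  · have h1 := rk_add_ex B.cc hx.mC hy.mC hxy
    rw [ex_rk B.cc hx.ex] at h1
    exact h1
  · exact rk_le B (add_fc B.cc B.hq hx.mq hy.mq) (B.ncc x y hx.ex hy.ex hx.mq hy.mq hx.nb hy.nb)

/-- (4a) -/
theorem four_a (h : T_RK2) (B : Bsy C q b)
    (H : ∀ W : Submodule ℝ V, Module.finrank ℝ W ≤ 3 → ∃ x, N C q b x ∧ x ∉ W)
    {x y : V} (hx : N C q b x) (hy : N C q b y)
    (hxy : y ∉ Fc C x) (hb : b ∉ Fc C (x + y)) : rk C (x + y) = 2 := by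
  obtain ⟨h1, h2⟩ := rk_two_three B hx hy hxy
  by_contra h3
  have h4 : rk C (x + y) = 3 := by omega
  have h5 := smp3 B H (add_fc B.cc B.hq hx.mq hy.mq) h4 hb
  exact h3 ((h V C B.cc).2 (x + y) x y (B.cc.add x hx.mC y hy.mC) h5 hx.ex hy.ex
    (left_fc B.cc hx.mC hy.mC) (right_fc B.cc hx.mC hy.mC) hxy)

/-- (4b) -/
theorem four_b (h : T_RK2) (B : Bsy C q b) (hbx : Ex C b)
    {x y : V} (hx : N C q b x) (hy : N C q b y)
    (hxy : y ∉ Fc C x) (hb : b ∈ Fc C (x + y)) : rk C (x + y) = 3 := by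
  obtain ⟨h1, h2⟩ := rk_two_three B hx hy hxy
  by_contra h3
  have h4 : rk C (x + y) = 2 := by omega
  rcases (h V C B.cc).1 x y hx.ex hy.ex hxy h4 b hbx hb with h5 | h5
  · exact hx.nb h5
  · exact hy.nb h5

/-- a ray outside of `x + y` -/
theorem new_pair (h : T_RK2) (B : Bsy C q b) (hbx : Ex C b)
    (H : ∀ W : Submodule ℝ V, Module.finrank ℝ W ≤ 3 → ∃ x, N C q b x ∧ x ∉ W)
    {x y w : V} (hx : N C q b x) (hy : N C q b y) (hw : N C q b w)
    (hxy : y ∉ Fc C x) (hb : b ∈ Fc C (x + y)) (hwn : w ∉ Fc C (x + y)) :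
    b ∈ Fc C (x + w) ∧ rk C (x + w) = 3 := by
  have hC := B.cc
  have hD : x + y ∈ C := hC.add x hx.mC y hy.mC
  have hwx : w ∉ Fc C x := fun h1 => hwn (tra hC hD (left_fc hC hx.mC hy.mC) h1)
  have hxw : x + w ∈ C := hC.add x hx.mC w hw.mC
  have key : b ∈ Fc C (x + w) := by
    by_contra h1
    have h2 := four_a h B H hx hw hwx h1
    have h3 := B.ii2 (x + w) y h2 hy.ex (add_fc hC B.hq hx.mq hw.mq) hy.mq h1 hy.nb
    apply h3
    have hE : x + w + y ∈ C := hC.add _ hxw y hy.mC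
    have h4 : x + w ∈ Fc C (x + w + y) := left_fc hC hxw hy.mC
    have h5 : y ∈ Fc C (x + w + y) := right_fc hC hxw hy.mC
    have h6 : x ∈ Fc C (x + w + y) := tra hC hE h4 (left_fc hC hx.mC hw.mC)
    have h7 : w ∈ Fc C (x + w + y) := tra hC hE h4 (right_fc hC hx.mC hw.mC)
    have h8 : x + y ∈ Fc C (x + w + y) := add_fc hC hE h6 h5
    have h9 := rk_add_ex hC hD hw.mC hwn
    have h10 := rk_mono hC hE (add_fc hC hE h8 h7)
    rw [four_b h B hbx hx hy hxy hb] at h9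
    exact of_four B (add_fc hC B.hq (add_fc hC B.hq hx.mq hw.mq) hy.mq) (by omega)
  exact ⟨key, four_b h B hbx hx hw hwx key⟩

/-- the plane spanned by `x` and `b` -/
theorem rk_xb (B : Bsy C q b) (hbx : Ex C b) {x y z : V}
    (hx : N C q b x) (hy : N C q b y) (hz : N C q b z)
    (h1 : b ∈ Fc C (x + y)) (h2 : rk C (x + y) = 3) (h3 : b ∈ Fc C (x + z))
    (h4 : rk C (x + z) = 3) (h5 : z ∉ Fc C (x + y)) : rk C (x + b) = 2 := by
  have hC := B.cc
  have hD : x + y ∈ C := hC.add x hx.mC y hy.mC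
  have hD' : x + z ∈ C := hC.add x hx.mC z hz.mC
  have h6 := rk_add_ex hC hx.mC hbx.1 hx.nb
  rw [ex_rk hC hx.ex] at h6
  have h7 : x + b ∈ Fc C (x + y) := add_fc hC hD (left_fc hC hx.mC hy.mC) h1
  have h8 : x + b ∈ Fc C (x + z) := add_fc hC hD' (left_fc hC hx.mC hz.mC) h3
  have h9 := rk_mono hC hD h7
  rw [h2] at h9
  by_contra h10
  have h11 : x + y ∈ Fc C (x + b) := of_rk hC hD h7 (by omega)
  have h12 : x + y ∈ Fc C (x + z) := tra hC hD' h8 h11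
  have h13 : x + z ∈ Fc C (x + y) := of_rk hC hD' h12 (by omega)
  exact h5 (tra hC hD h13 (right_fc hC hx.mC hz.mC))

/-- the third face through the plane spanned by `x` and `b` -/
theorem third (hE : T_EDG) (B : Bsy C q b) (hbx : Ex C b) {x y z w : V}
    (hx : N C q b x) (hy : N C q b y) (hz : N C q b z) (hw : N C q b w)
    (h1 : b ∈ Fc C (x + y)) (h2 : rk C (x + y) = 3) (h3 : b ∈ Fc C (x + z))
    (h4 : rk C (x + z) = 3) (h5 : z ∉ Fc C (x + y)) (h6 : b ∈ Fc C (x + w))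
    (h7 : rk C (x + w) = 3) (h8 : w ∉ Fc C (x + y)) : w ∈ Fc C (x + z) := by
  have hC := B.cc
  have hD : x + y ∈ C := hC.add x hx.mC y hy.mC
  have hD' : x + z ∈ C := hC.add x hx.mC z hz.mC
  have hDw : x + w ∈ C := hC.add x hx.mC w hw.mC
  by_contra h9
  refine hE V C q (x + b) (x + y) (x + z) (x + w) hC B.hq B.rk4
    (rk_xb B hbx hx hy hz h1 h2 h3 h4 h5) (add_fc hC B.hq hx.mq hy.mq)
    (add_fc hC B.hq hx.mq hz.mq) (add_fc hC B.hq hx.mq hw.mq) h2 h4 h7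
    (add_fc hC hD (left_fc hC hx.mC hy.mC) h1) (add_fc hC hD' (left_fc hC hx.mC hz.mC) h3)
    (add_fc hC hDw (left_fc hC hx.mC hw.mC) h6) ?_ ?_ ?_
  · exact fun h10 => h5 (tra hC hD h10 (right_fc hC hx.mC hz.mC))
  · exact fun h10 => h8 (tra hC hD h10 (right_fc hC hx.mC hw.mC))
  · exact fun h10 => h9 (tra hC hD' h10 (right_fc hC hx.mC hw.mC))

/-- Lemma L -/
theorem lemL (h : T_RK2) (hE : T_EDG) (hF : T_FIN) (B : Bsy C q b) (hbx : Ex C b)
    (H : ∀ W : Submodule ℝ V, Module.finrank ℝ W ≤ 3 → ∃ x, N C q b x ∧ x ∉ W)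
    {x y z : V} (hx : N C q b x) (hy : N C q b y) (hz : N C q b z)
    (hxy : y ∉ Fc C x) (hb : b ∈ Fc C (x + y)) (hzn : z ∉ Fc C (x + y)) :
    b ∈ Fc C (x + z) ∧ b ∈ Fc C (y + z) ∧ y ∉ Fc C (x + z) ∧ x ∉ Fc C (y + z) ∧
    (∀ w, N C q b w → w ∈ Fc C (x + z) → w ∈ Fc C (y + z) → w ∈ Fc C z) ∧
    ∀ w, N C q b w → w ∈ Fc C (x + y) ∨ w ∈ Fc C z := by
  have hC := B.cc
  have hD : x + y ∈ C := hC.add x hx.mC y hy.mC
  have hD' : x + z ∈ C := hC.add x hx.mC z hz.mC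
  have hD'' : y + z ∈ C := hC.add y hy.mC z hz.mC
  have hyx : x ∉ Fc C y := fun h1 => hxy (ex_symm hC hy.ex hx.ex h1)
  have hb' : b ∈ Fc C (y + x) := by rw [add_comm]; exact hb
  have hrD := four_b h B hbx hx hy hxy hb
  have hrD' := hrD
  rw [add_comm] at hrD'
  have hzn' : z ∉ Fc C (y + x) := by rw [add_comm]; exact hzn
  obtain ⟨h1, h2⟩ := new_pair h B hbx H hx hy hz hxy hb hzn
  obtain ⟨h3, h4⟩ := new_pair h B hbx H hy hx hz hyx hb' hzn'
  have h5 : y ∉ Fc C (x + z) := by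
    intro h6
    have h7 : x + y ∈ Fc C (x + z) := add_fc hC hD' (left_fc hC hx.mC hz.mC) h6
    have h8 : x + z ∈ Fc C (x + y) := of_rk hC hD' h7 (by omega)
    exact hzn (tra hC hD h8 (right_fc hC hx.mC hz.mC))
  have h6 : x ∉ Fc C (y + z) := by
    intro h6
    have h7 : x + y ∈ Fc C (y + z) := add_fc hC hD'' h6 (left_fc hC hy.mC hz.mC)
    have h8 : y + z ∈ Fc C (x + y) := of_rk hC hD'' h7 (by omega)
    exact hzn (tra hC hD h8 (right_fc hC hy.mC hz.mC))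
  have star : ∀ w, N C q b w → w ∈ Fc C (x + z) → w ∈ Fc C (y + z) → w ∈ Fc C z := by
    intro w hw hw1 hw2
    obtain ⟨r, hr, hr'⟩ := hF V C (x + z) (y + z) hC hD' hD''
    have h7 : z ∈ Fc C r := (hr' z).2 ⟨right_fc hC hx.mC hz.mC, right_fc hC hy.mC hz.mC⟩
    have h8 : b ∈ Fc C r := (hr' b).2 ⟨h1, h3⟩
    have h9 : w ∈ Fc C r := (hr' w).2 ⟨hw1, hw2⟩
    obtain ⟨h10, h11⟩ := (hr' r).1 (self hC hr)
    have h12 : rk C r ≤ 2 := by
      by_contra h13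
      have h14 : x + z ∈ Fc C r := of_rk hC hD' h10 (by omega)
      have h15 := ((hr' _).1 h14).2
      exact h6 (tra hC hD'' h15 (left_fc hC hx.mC hz.mC))
    have h13 : z + b ∈ Fc C r := add_fc hC hr h7 h8
    have h14 := rk_add_ex hC hz.mC hbx.1 hz.nb
    rw [ex_rk hC hz.ex] at h14
    have h15 : r ∈ Fc C (z + b) := of_rk hC hr h13 (by omega)
    have h16 := rk_mono hC hr h13
    have h17 : rk C (z + b) = 2 := by omega
    have h18 : w ∈ Fc C (z + b) := tra hC (hC.add z hz.mC b hbx.1) h15 h9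
    rcases (h V C hC).1 z b hz.ex hbx hz.nb h17 w hw.ex h18 with h19 | h19
    · exact h19
    · exact absurd (ex_symm hC hbx hw.ex h19) hw.nb
  refine ⟨h1, h3, h5, h6, star, ?_⟩
  intro w hw
  by_cases hwD : w ∈ Fc C (x + y)
  · exact Or.inl hwD
  · right
    have hwD' : w ∉ Fc C (y + x) := by rw [add_comm]; exact hwD
    obtain ⟨h7, h8⟩ := new_pair h B hbx H hx hy hw hxy hb hwD
    obtain ⟨h9, h10⟩ := new_pair h B hbx H hy hx hw hyx hb' hwD'
    apply star w hw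
    · exact third hE B hbx hx hy hz hw hb hrD h1 h2 hzn h7 h8 hwD
    · exact third hE B hbx hy hx hz hw hb' hrD' h3 h4 hzn' h9 h10 hwD'

end

theorem pf_SHC (h : T_RK2) (h2 : T_EDG) (h3 : T_FIN) : T_SHC := by
  intro V _ _ _ C q b B hbx H0 x y hx1 hy1 hxq hyq hxb hyb hxy
  have hx : N C q b x := ⟨hx1, hxq, hxb⟩
  have hy : N C q b y := ⟨hy1, hyq, hyb⟩
  have H : ∀ W : Submodule ℝ V, Module.finrank ℝ W ≤ 3 → ∃ x, N C q b x ∧ x ∉ W := by
    intro W hW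
    obtain ⟨x, h1, h2, h3, h4⟩ := H0 W hW
    exact ⟨x, ⟨h1, h2, h3⟩, h4⟩
  have hC := B.cc
  have key : b ∉ Fc C (x + y) := by
    intro hb
    have hrD := four_b h B hbx hx hy hxy hb
    obtain ⟨z, hz, hzW⟩ := H (Sp C (x + y)) (le_of_eq hrD)
    have hzn : z ∉ Fc C (x + y) := fun h4 => hzW (mem_sp h4)
    have hD : x + y ∈ C := hC.add x hx.mC y hy.mC
    have hzx : z ∉ Fc C x := fun h4 => hzn (tra hC hD (left_fc hC hx.mC hy.mC) h4)
    have hzy : z ∉ Fc C y := fun h4 => hzn (tra hC hD (right_fc hC hx.mC hy.mC) h4)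
    obtain ⟨a1, a2, a3, a4, a5, a6⟩ := lemL h h2 h3 B hbx H hx hy hz hxy hb hzn
    obtain ⟨-, -, -, -, -, b6⟩ := lemL h h2 h3 B hbx H hx hz hy hzx a1 a3
    obtain ⟨-, -, -, -, -, c6⟩ := lemL h h2 h3 B hbx H hy hz hx hzy a2 a4
    obtain ⟨w, hw, hwW⟩ := H (Submodule.span ℝ (Set.range ![x, y, z])) (by
      have h5 := finrank_range_le_card (R := ℝ) ![x, y, z]
      rw [Set.finrank, Fintype.card_fin] at h5
      exact h5)
    apply hwW
    have hmem : ∀ i : Fin 3, w ∈ Fc C (![x, y, z] i) → Ex C (![x, y, z] i) →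
        w ∈ Submodule.span ℝ (Set.range ![x, y, z]) := by
      intro i h5 h6
      obtain ⟨c, -, hc⟩ := ex_mem hC h6 h5
      rw [hc]
      exact Submodule.smul_mem _ _ (Submodule.subset_span ⟨i, rfl⟩)
    rcases a6 w hw with h5 | h5
    · rcases b6 w hw with h6 | h6
      · rcases c6 w hw with h7 | h7
        · exact hmem 2 (a5 w hw h6 h7) hz.ex
        · exact hmem 0 h7 hx.ex
      · exact hmem 1 h6 hy.ex
    · exact hmem 2 h5 hz.ex
  exact ⟨key, four_a h B H hx hy hxy key⟩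

end Pool.Agent.H85.KW.SHC
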